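import Mathlib
import Pool.Agent.H31.Cone.Neg
import Pool.Agent.H31.Cone.Pos2

/-!
# A principal rational cone containing all quasi-rational languages, different from Alg

There is a context-free language `L` over a finite alphabet such that every quasi-rational
(non-expansive) language is the image of `L` under a rational transduction, while some
context-free language is not.

The language `L` consists of the words `t^k w` where `w` is in the universal spine language
(labels `o b`, `c b` in palindromic order with blocks `p u q` attached on both sides of the
spine), or the bracket depth of `w` leaves the interval `[0, k]` at some point.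
The context-free language outside the cone is `{p^n z q^n | z codes a binary tree}`.
-/

namespace Pool.Agent.Results.MP_2d18ab_lc.PrincipalConeQrt

open Pool.Agent.H31.Cone

theorem result : ∃ (Γ : Type) (_ : Finite Γ) (L : Language Γ), L.IsContextFree ∧
    (∀ (α : Type) [Finite α] (K : Language α), Qrt K → InCone L K) ∧
    ∃ (α : Type) (_ : Finite α) (K : Language α), K.IsContextFree ∧ ¬ InCone L K :=
  ⟨Option X, inferInstance, LL, LL_isContextFree, fun _ _ _ hK => Qrt_inCone hK,
    Y, inferInstance, KK, KK_isContextFree, not_inCone⟩

end Pool.Agent.Results.MP_2d18ab_lc.PrincipalConeQrt
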